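import Pool.Agent.Work.MP_f25c59_an.Cp.Core

/-!
A metric space homeomorphic to the Cantor set whose free `p`-spaces fail the approximation property.
-/

set_option autoImplicit false

namespace Pool.Agent.Work.MP_f25c59_an

open Filter Topology UniformSpace

lemma cantor_of_pi {I : Type} [Countable I] [Infinite I] (G : I → Type)
    [∀ i, TopologicalSpace (G i)] [∀ i, DiscreteTopology (G i)] (m : I → ℕ)
    (e : ∀ i, G i ≃ (Fin (m i + 1) → Bool)) : Nonempty ((∀ i, G i) ≃ₜ cantorSet) := by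
  have : Infinite (Σ i, Fin (m i + 1)) :=
    Infinite.of_surjective Sigma.fst fun i => ⟨⟨i, 0⟩, rfl⟩
  obtain ⟨τ⟩ : Nonempty ((Σ i, Fin (m i + 1)) ≃ ℕ) := nonempty_equiv_of_countable
  have h1 : (∀ i, G i) ≃ₜ (∀ i, Fin (m i + 1) → Bool) :=
    Homeomorph.piCongrRight fun i => (e i).toHomeomorphOfDiscrete
  have h2 : ((Σ i, Fin (m i + 1)) → Bool) ≃ₜ (∀ i, Fin (m i + 1) → Bool) :=
    Continuous.homeoOfEquivCompactToT2
      (f := Equiv.piCurry fun (i : I) (_ : Fin (m i + 1)) => Bool)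
      (continuous_pi fun _ => continuous_pi fun _ => continuous_apply _)
  have h3 : ((Σ i, Fin (m i + 1)) → Bool) ≃ₜ (ℕ → Bool) :=
    Homeomorph.piCongrLeft (Y := fun _ => Bool) τ
  exact ⟨((h1.trans h2.symm).trans h3).trans cantorSetHomeomorphNatToBool.symm⟩

lemma co_le (D : Davie) (n : ℕ) (j : JJ n) (a : VV D) : |co D n j a| ≤ ‖a‖ := by
  have hpos : (0 : ℝ) < 2 ^ (n + 2) := by positivity
  have h1 := (Finset.abs_sum_le_sum_abs _ _).trans (Finset.sum_le_card_nsmul Finset.univ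
    (fun g => |D.σ n j g * ev D n g a|) ‖a‖ fun g _ => by
      rw [abs_mul, sign_abs (D.σ_sign n j g), one_mul]; exact ev_le D n g a)
  have h2 : ((Finset.univ : Finset (GG n)).card : ℝ) = 2 ^ (n + 2) := by simp
  rw [co_eq_σ, nsmul_eq_mul, h2, abs_mul, abs_of_pos hpos] at h1
  exact le_of_mul_le_mul_left h1 hpos

lemma lip_restrict {V : Type} [NormedAddCommGroup V] [NormedSpace ℝ V] (S : Set V)
    (ℓ : V →ₗ[ℝ] ℝ) (h : ∀ a, |ℓ a| ≤ ‖a‖) : LipschitzWith 1 fun a : S => ℓ a :=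
  LipschitzWith.of_dist_le_mul fun a b => by
    rw [Real.dist_eq, ← map_sub, Subtype.dist_eq, dist_eq_norm, NNReal.coe_one, one_mul]
    exact h _

/-- The image of a dense subset generates the free space. -/
lemma dense_restrict {p : ℝ} (hp : 0 < p) {S : Type} [MetricSpace S] {o : Completion S} {Y : Type}
    [AddCommGroup Y] [Module ℝ Y] {N : Y → ℝ} {δ : Completion S → Y} (h : IsFree p o N δ)
    (y : Y) (ε : ℝ) (hε : 0 < ε) :
    ∃ z ∈ Submodule.span ℝ (Set.range fun a : S => δ a), N (y - z) < ε := by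
  obtain ⟨hN, -, hiso, hdense, -⟩ := h
  have small : ∀ η : ℝ, 0 < η → ∃ θ : ℝ, 0 < θ ∧ ∀ u v, N u < θ → N v < θ → N (u + v) < η := by
    intro η hη
    have h1 : 0 < η ^ p / 2 := by positivity
    refine ⟨(η ^ p / 2) ^ p⁻¹, Real.rpow_pos_of_pos h1 _, fun u v hu hv => ?_⟩
    have h2 := Real.rpow_lt_rpow (hN.nonneg u) hu hp
    have h3 := Real.rpow_lt_rpow (hN.nonneg v) hv hp
    rw [Real.rpow_inv_rpow h1.le hp.ne'] at h2 h3
    rw [← Real.rpow_lt_rpow_iff (hN.nonneg _) hη.le hp]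
    linarith [hN.triangle u v]
  have key : ∀ z ∈ Submodule.span ℝ (Set.range δ), ∀ η : ℝ, 0 < η →
      ∃ z' ∈ Submodule.span ℝ (Set.range fun a : S => δ a), N (z - z') < η := by
    intro z hz
    induction hz using Submodule.span_induction with
    | mem z hz =>
      obtain ⟨x, rfl⟩ := hz
      intro η hη
      obtain ⟨a, ha⟩ := Metric.denseRange_iff.1 (Completion.denseRange_coe (α := S)) x η hη
      exact ⟨δ a, Submodule.subset_span ⟨a, rfl⟩, by rwa [hiso]⟩
    | zero => exact fun η hη => ⟨0, Submodule.zero_mem _, by rwa [sub_zero, hN.zero]⟩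
    | add u v _ _ hu hv =>
      intro η hη
      obtain ⟨θ, hθ, h1⟩ := small η hη
      obtain ⟨u', a1, a2⟩ := hu θ hθ
      obtain ⟨v', b1, b2⟩ := hv θ hθ
      exact ⟨u' + v', Submodule.add_mem _ a1 b1, by
        rw [add_sub_add_comm]; exact h1 _ _ a2 b2⟩
    | smul t u _ hu =>
      intro η hη
      have h0 : 0 < |t| + 1 := by positivity
      obtain ⟨u', a1, a2⟩ := hu (η / (|t| + 1)) (by positivity)
      refine ⟨t • u', Submodule.smul_mem _ _ a1, ?_⟩
      rw [← smul_sub, hN.smul]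
      rw [lt_div_iff₀ h0] at a2
      nlinarith [hN.nonneg (u - u')]
  obtain ⟨θ, hθ, h1⟩ := small ε hε
  obtain ⟨z, hz, hyz⟩ := hdense y θ hθ
  obtain ⟨z', hz', hzz⟩ := key z hz θ hθ
  exact ⟨z', hz', by simpa using h1 _ _ hyz hzz⟩

theorem cp_cantor (D : Davie) : ∃ (M : Type) (_ : MetricSpace M) (o : M),
    Nonempty (M ≃ₜ cantorSet) ∧ ∀ p : ℝ, 0 < p → p ≤ 1 → ∀ (Y : Type) [AddCommGroup Y]
      [Module ℝ Y] (N : Y → ℝ) (δ : M → Y), IsFree p o N δ → ¬ HasAP N := by
  classical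
  obtain ⟨S, hS1, hS2, hS3⟩ := cp_core D
  have hΓ : ∀ i : Σ n, JJ n, ∃ (Γ : Set ℝ) (m : ℕ), insert 0 (co D i.1 i.2 '' S) ⊆ Γ ∧
      Γ ⊆ Set.Icc (-(4 * (1 / 4) ^ i.1)) (4 * (1 / 4) ^ i.1) ∧ Γ.ncard = 2 ^ (m + 1) := by
    intro i
    have hc : (0 : ℝ) < 4 * (1 / 4) ^ i.1 := by positivity
    obtain ⟨Γ, h⟩ := (Set.Icc_infinite (neg_lt_self hc)).exists_superset_ncard_eq
      (s := insert 0 (co D i.1 i.2 '' S)) (by
        rintro _ (rfl | ⟨a, ha, rfl⟩)
        · exact ⟨by linarith, hc.le⟩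
        · exact abs_le.1 (hS1 ha i.1 i.2)) ((hS2 i.1 i.2).insert 0)
      (k := 2 ^ ((insert 0 (co D i.1 i.2 '' S)).ncard + 1))
      ((Nat.le_succ _).trans Nat.lt_two_pow_self.le)
    exact ⟨Γ, _, h⟩
  choose Γ m hΓ1 hΓ2 hΓ3 using hΓ
  have hΓf : ∀ i, (Γ i).Finite := fun i =>
    Set.finite_of_ncard_ne_zero (by rw [hΓ3]; positivity)
  have : ∀ i, Finite (Γ i) := hΓf
  have he : ∀ i, Nonempty (Γ i ≃ (Fin (m i + 1) → Bool)) := fun i =>
    Finite.card_eq.1 (by rw [Nat.card_coe_set_eq, hΓ3]; simp)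
  have : Infinite (Σ n, JJ n) :=
    Infinite.of_surjective Sigma.fst fun n => ⟨⟨n, ⟨0, by positivity⟩⟩, rfl⟩
  obtain ⟨ψ⟩ := cantor_of_pi (fun i => Γ i) m fun i => (he i).some
  let S' : Set (VV D) := {a | ∀ i : Σ n, JJ n, co D i.1 i.2 a ∈ Γ i}
  have hB : S' ⊆ BX D 4 := fun a ha n j => abs_le.2 (hΓ2 ⟨n, j⟩ (ha ⟨n, j⟩))
  have h0 : (0 : VV D) ∈ S' := fun i => hΓ1 i (Or.inl (map_zero _))
  have hlim : ∀ ε : ℝ, 0 < ε → ∃ k : ℕ, 2 * (8 * (1 / 2 : ℝ) ^ k) < ε := by
    intro ε hε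
    obtain ⟨k, hk⟩ := exists_pow_lt_of_lt_one (show 0 < ε / 16 by positivity)
      (show (1 / 2 : ℝ) < 1 by norm_num)
    exact ⟨k, by linarith⟩
  have htb : TotallyBounded (Set.univ : Set S') := by
    refine Metric.totallyBounded_of_finite_discretization fun ε hε => ?_
    obtain ⟨k, hk⟩ := hlim ε hε
    refine ⟨∀ i : Σ n : Fin k, JJ n, Γ ⟨i.1, i.2⟩, Fintype.ofFinite _,
      fun a i => ⟨_, a.1.2 ⟨i.1, i.2⟩⟩, fun a b hab => ?_⟩
    have h1 := bx_dist D k (hB a.1.2) (hB b.1.2)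
    rw [Finset.sum_eq_zero fun i _ => abs_eq_zero.2 (sub_eq_zero.2
      (congrArg Subtype.val (congrFun hab i))), mul_zero, zero_add] at h1
    rw [Subtype.dist_eq, dist_eq_norm]
    exact h1.trans_lt hk
  have : CompactSpace (Completion S') := by
    have h1 := (htb.image (Completion.uniformContinuous_coe S')).closure
    rw [Set.image_univ, Completion.denseRange_coe.closure_range] at h1
    exact ⟨h1.isCompact_of_isClosed isClosed_univ⟩
  let φ : (Σ n, JJ n) → Completion S' → ℝ := fun i =>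
    Completion.extension fun a : S' => co D i.1 i.2 a
  have hφ1 : ∀ i, Continuous (φ i) := fun i => Completion.continuous_extension
  have hφ2 : ∀ i (a : S'), φ i a = co D i.1 i.2 a := fun i =>
    Completion.extension_coe (lip_restrict S' _ (co_le D i.1 i.2)).uniformContinuous
  clear_value φ
  have hφ3 : ∀ x i, φ i x ∈ Γ i := by
    intro x i
    induction x using Completion.induction_on with
    | hp => exact (hΓf i).isClosed.preimage (hφ1 i)
    | ih a => rw [hφ2]; exact a.2 i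
  have hφ4 : ∀ (k : ℕ) (x y : Completion S'), dist x y ≤
      2 * (2 ^ k * ∑ i : Σ n : Fin k, JJ n, |φ ⟨i.1, i.2⟩ x - φ ⟨i.1, i.2⟩ y| + 8 * (1 / 2) ^ k) := by
    intro k x y
    induction x, y using Completion.induction_on₂ with
    | hp =>
      refine isClosed_le continuous_dist (continuous_const.mul ((continuous_const.mul
        (continuous_finsetSum _ fun i _ => ?_)).add continuous_const))
      exact (((hφ1 _).comp continuous_fst).sub ((hφ1 _).comp continuous_snd)).abs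
    | ih a b =>
      simp only [hφ2]
      rw [Completion.dist_eq, Subtype.dist_eq, dist_eq_norm]
      exact bx_dist D k (hB a.2) (hB b.2)
  let Φ : Completion S' → ∀ i, Γ i := fun x i => ⟨φ i x, hφ3 x i⟩
  have hΦ : Continuous Φ := continuous_pi fun i => (hφ1 i).subtype_mk _
  have hinj : Function.Injective Φ := by
    intro x y hxy
    refine eq_of_forall_dist_le fun ε hε => ?_
    obtain ⟨k, hk⟩ := hlim ε hε
    have h1 := hφ4 k x y
    rw [Finset.sum_eq_zero fun i _ => abs_eq_zero.2 (sub_eq_zero.2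
      (congrArg Subtype.val (congrFun hxy ⟨i.1, i.2⟩))), mul_zero, zero_add] at h1
    exact (h1.trans_lt hk).le
  have hsurj : Function.Surjective Φ := by
    intro f
    have ha : ∀ k : ℕ, ∃ a : S', ∀ i : Σ n, JJ n, i.1 < k → co D i.1 i.2 a = f i := by
      intro k
      let a : (Σ n, JJ n) →₀ ℝ := Finsupp.onFinset
        ((Finset.range k).sigma fun _ => Finset.univ) (fun i => if i.1 < k then f i else 0)
        fun i hi => Finset.mem_sigma.2 ⟨Finset.mem_range.2 (by
          by_contra h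
          exact hi (if_neg h)), Finset.mem_univ _⟩
      have ha : ∀ i : Σ n, JJ n, co D i.1 i.2 a = if i.1 < k then (f i : ℝ) else 0 := fun _ => rfl
      refine ⟨⟨a, fun i => ?_⟩, fun i hi => (ha i).trans (if_pos hi)⟩
      rw [ha]
      split_ifs
      · exact (f i).2
      · exact hΓ1 i (Or.inl rfl)
    choose a ha using ha
    have hcl : IsClosed (Set.range Φ) := (isCompact_range hΦ).isClosed
    suffices hs : Tendsto (fun k => Φ (a k)) atTop (𝓝 f) from
      hcl.mem_of_tendsto hs (Eventually.of_forall fun k => ⟨_, rfl⟩)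
    refine tendsto_pi_nhds.2 fun i => tendsto_const_nhds.congr' ?_
    filter_upwards [eventually_gt_atTop i.1] with k hk
    exact Subtype.ext ((ha k i hk).symm.trans (hφ2 i (a k)).symm)
  refine ⟨Completion S', inferInstance, ((⟨0, h0⟩ : S') : Completion S'),
    ⟨(Continuous.homeoOfEquivCompactToT2 (f := Equiv.ofBijective Φ ⟨hinj, hsurj⟩) hΦ).trans ψ⟩,
    fun p hp hp1 Y _ _ N δ hF => ?_⟩
  refine hS3 S' (fun a ha i => hΓ1 i (Or.inr ⟨a, ha, rfl⟩)) p hp hp1 Y N (fun a => δ a) hF.1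
    (fun a b => by rw [hF.2.2.1, Completion.dist_eq]) (dense_restrict hp hF) fun n g => ?_
  have hl := lip_restrict S' _ (ev_le D n g)
  have hc := Completion.extension_coe hl.uniformContinuous
  have hl' : ∀ a b, |Completion.extension (fun a : S' => ev D n g a) a -
      Completion.extension (fun a : S' => ev D n g a) b| ≤ 1 * dist a b := fun a b => by
    simpa [Real.dist_eq] using hl.completion_extension.dist_le_mul a b
  obtain ⟨T, h1, h2, -⟩ := hF.2.2.2.2 ℝ (fun x => |x|) (abs_isPBanach hp hp1) _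
    ((hc _).trans (map_zero _)) ⟨1, hl'⟩
  exact ⟨T, fun a => (h1 a).trans (hc a), fun y => by simpa using (h2 1 zero_le_one).2 hl' y⟩

end Pool.Agent.Work.MP_f25c59_an
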