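import Pool.Agent.Work.MP_f25c59_an.Cp.Lift

/-!
Davie's argument on a totally bounded box of Davie's space.
-/

set_option autoImplicit false
set_option linter.unusedSectionVars false

namespace Pool.Agent.Work.MP_f25c59_an

open Finset Filter Topology

lemma cp_lip {V A : Type} [NormedAddCommGroup V] [CommRing A] [Algebra ℝ A] {X : V → A}
    (L : A →ₗ[ℝ] ℝ) {B : ℝ} (hB : 0 ≤ B) (hL : ∀ x y, |L (X x) - L (X y)| ≤ B * ‖x - y‖)
    {μ : A} {a : ℝ} (h : Mol X μ a) : |L μ| ≤ a * B := by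
  induction h with
  | one c x y =>
    rw [map_smul, map_sub, smul_eq_mul, abs_mul, mul_assoc, mul_comm ‖x - y‖]
    exact mul_le_mul_of_nonneg_left (hL x y) (abs_nonneg c)
  | zero => simp
  | add _ _ h1 h2 =>
    rw [map_add, add_mul]
    exact (abs_add_le _ _).trans (add_le_add h1 h2)
  | mono _ hab h1 => exact h1.trans (mul_le_mul_of_nonneg_right hab hB)

/-- A combination of differences that is supported in `S` is controlled by finitely many
normalised molecules with both points in `S`. -/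
lemma cp_finite {V A Y : Type} [NormedAddCommGroup V] [CommRing A] [Algebra ℝ A]
    [AddCommGroup Y] [Module ℝ Y] {X : V → A} {p : ℝ} {N : Y → ℝ} (hN : IsPBanach p N)
    (hlin : ∀ f : V → ℝ, ∃ L : A →ₗ[ℝ] ℝ, ∀ v, L (X v) = f v) (S : Set V) (ι : A →ₗ[ℝ] Y)
    (hι : ∀ x ∈ S, ∀ y ∈ S, N (ι (X x) - ι (X y)) = ‖x - y‖) {μ : A} {a : ℝ} (h : Mol X μ a)
    (hS : μ ∈ Submodule.span ℝ (X '' S)) :
    ∃ F : Set Y, F.Finite ∧ (∀ m ∈ F, N m ≤ 1) ∧ ∀ (ℓ : Y →ₗ[ℝ] ℝ) (B : ℝ), 0 ≤ B →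
      (∀ m ∈ F, |ℓ m| ≤ B) → |ℓ (ι μ)| ≤ a * B := by
  classical
  obtain ⟨T, hT1, hT2⟩ := Submodule.mem_span_finite_of_mem_span hS
  obtain ⟨S0, h01, rfl⟩ := Finset.subset_set_image_iff.1 hT1
  refine ⟨(fun q : V × V => ‖q.1 - q.2‖⁻¹ • (ι (X q.1) - ι (X q.2))) '' ((S0 : Set V) ×ˢ S0),
    ((S0.finite_toSet).prod S0.finite_toSet).image _, ?_, fun ℓ B hB hF => ?_⟩
  · rintro _ ⟨q, hq, rfl⟩
    dsimp only
    rw [hN.smul, hι _ (h01 hq.1) _ (h01 hq.2), abs_of_nonneg (inv_nonneg.2 (norm_nonneg _))]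
    exact inv_mul_le_one_of_le₀ le_rfl (norm_nonneg _)
  · have hf : LipschitzOnWith ⟨B, hB⟩ (fun v => ℓ (ι (X v))) (S0 : Set V) := by
      refine LipschitzOnWith.of_dist_le_mul fun x hx y hy => ?_
      by_cases hxy : x = y
      · simp [hxy]
      · have hpos : 0 < ‖x - y‖ := norm_pos_iff.2 (sub_ne_zero.2 hxy)
        have h1 := hF _ ⟨(x, y), ⟨hx, hy⟩, rfl⟩
        dsimp only at h1
        rw [map_smul, smul_eq_mul, abs_mul, abs_of_pos (inv_pos.2 hpos), inv_mul_le_iff₀ hpos,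
          map_sub] at h1
        rw [Real.dist_eq, dist_eq_norm, mul_comm]
        exact h1
    obtain ⟨g, hg1, hg2⟩ := hf.extend_real
    obtain ⟨L, hL⟩ := hlin g
    have h1 : ℓ (ι μ) = L μ := by
      refine LinearMap.eqOn_span (f := ℓ.comp ι) (g := L) ?_ hT2
      intro z hz
      obtain ⟨v, hv, rfl⟩ := Finset.mem_image.1 (Finset.mem_coe.1 hz)
      rw [hL, ← hg2 hv]
      rfl
    rw [h1]
    refine cp_lip L hB (fun x y => ?_) h
    have h2 := hg1.dist_le_mul x y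
    rw [Real.dist_eq, dist_eq_norm] at h2
    rw [hL, hL]
    exact h2

lemma cp_galg {V : Type} [NormedAddCommGroup V] : ∃ X : V → AddMonoidAlgebra ℝ V, IsChar X ∧
    ∀ (Y : Type) [AddCommGroup Y] [Module ℝ Y] (f : V → Y),
      ∃ ι : AddMonoidAlgebra ℝ V →ₗ[ℝ] Y, ∀ v, ι (X v) = f v := by
  refine ⟨fun v => AddMonoidAlgebra.single v 1, ⟨rfl, fun u v => ?_⟩, fun Y _ _ f =>
    ⟨(Finsupp.linearCombination ℝ f).comp (AddMonoidAlgebra.coeffLinearEquiv ℝ).toLinearMap,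
      fun v => ?_⟩⟩
  · rw [AddMonoidAlgebra.single_mul_single, one_mul]
  · simp

/-- The boxes in Davie's space. -/
def BX (D : Davie) (r : ℝ) : Set (VV D) := {a | ∀ n j, |co D n j a| ≤ r * (1 / 4) ^ n}

lemma bx_box (D : Davie) : Box (BX D) where
  zero := fun n j => by simp
  add := fun hx hy n j => by
    rw [map_add, add_mul]
    exact (abs_add_le _ _).trans (add_le_add (hx n j) (hy n j))
  mono := fun h a ha n j => (ha n j).trans (mul_le_mul_of_nonneg_right h (by positivity))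
  smul := fun c hc hx n j => by
    rw [map_smul, smul_eq_mul, abs_mul, abs_of_nonneg hc, mul_assoc]
    exact mul_le_mul_of_nonneg_left (hx n j) hc

lemma ee_mem (D : Davie) (n : ℕ) (j : JJ n) : ee D n j ∈ BX D (4 ^ n) := by
  intro m k
  by_cases h : m = n
  · subst h
    rw [co_ee_same, ← mul_pow]
    split_ifs <;> norm_num
  · rw [co_ee_ne D h, abs_zero]
    positivity

lemma norm_le_of_co (D : Davie) (a : VV D) (η : ℝ) (h : ∀ n j, |co D n j a| ≤ η * (1 / 2) ^ n) :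
    ‖a‖ ≤ 2 * η := by
  have key : ∀ n (s : JJ n → ℝ), (∀ j, s j = 1 ∨ s j = -1) → |∑ j, s j * co D n j a| ≤ η := by
    intro n s hs
    refine (Finset.abs_sum_le_sum_abs _ _).trans ?_
    have h1 := Finset.sum_le_card_nsmul univ (fun j => |s j * co D n j a|) (η * (1 / 2) ^ n)
      fun j _ => by rw [abs_mul, sign_abs (hs j), one_mul]; exact h n j
    rw [card_univ, nsmul_eq_mul, Fintype.card_fin] at h1
    refine h1.trans (le_of_eq ?_)
    push_cast
    rw [mul_left_comm, ← mul_pow]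
    norm_num
  refine vnorm_le D _ _ fun n g => ?_
  rw [ev_apply]
  have h1 := key n (fun j => D.σ n j g) fun j => D.σ_sign n j g
  have h2 := key (n + 1) (fun j => D.τ n j g) fun j => D.τ_sign n j g
  linarith [abs_add_le (∑ j, D.σ n j g * co D n j a) (∑ j, D.τ n j g * co D (n + 1) j a)]

lemma bx_dist (D : Davie) (k : ℕ) {a b : VV D} (ha : a ∈ BX D 4) (hb : b ∈ BX D 4) :
    ‖a - b‖ ≤ 2 * (2 ^ k * ∑ i : Σ n : Fin k, JJ n, |co D i.1 i.2 a - co D i.1 i.2 b| +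
      8 * (1 / 2) ^ k) := by
  have h0 : 0 ≤ ∑ i : Σ n : Fin k, JJ n, |co D i.1 i.2 a - co D i.1 i.2 b| :=
    Finset.sum_nonneg fun _ _ => abs_nonneg _
  refine norm_le_of_co D _ _ fun n j => ?_
  have h5 : (0 : ℝ) < (1 / 2) ^ n := by positivity
  have h7 : (0 : ℝ) < (1 / 2) ^ k := by positivity
  have h8 : (0 : ℝ) < 2 ^ k := by positivity
  rw [map_sub]
  rcases lt_or_ge n k with hn | hn
  · have h1 := Finset.single_le_sum (f := fun i : Σ n : Fin k, JJ n =>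
      |co D i.1 i.2 a - co D i.1 i.2 b|) (fun _ _ => abs_nonneg _) (mem_univ ⟨⟨n, hn⟩, j⟩)
    have h2 : (1 / 2 : ℝ) ^ k ≤ (1 / 2) ^ n :=
      pow_le_pow_of_le_one (by norm_num) (by norm_num) hn.le
    have h3 : (2 : ℝ) ^ k * (1 / 2) ^ k = 1 := by rw [← mul_pow]; norm_num
    have h4 : 1 ≤ (2 : ℝ) ^ k * (1 / 2) ^ n := by nlinarith
    refine le_trans h1 ?_
    nlinarith [mul_pos h7 h5]
  · have h1 := ha n j
    have h2 := hb n j
    have h3 : (1 / 4 : ℝ) ^ n = (1 / 2) ^ n * (1 / 2) ^ n := by rw [← mul_pow]; norm_num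
    have h4 : (1 / 2 : ℝ) ^ n ≤ (1 / 2) ^ k :=
      pow_le_pow_of_le_one (by norm_num) (by norm_num) hn
    have h6 := abs_sub (co D n j a) (co D n j b)
    nlinarith [mul_nonneg (mul_nonneg h8.le h0) h5.le]

theorem cp_core (D : Davie) : ∃ S ⊆ BX D 4, (∀ n j, (co D n j '' S).Finite) ∧
    ∀ S' : Set (VV D), S ⊆ S' → ∀ p : ℝ, 0 < p → p ≤ 1 → ∀ (Y : Type) [AddCommGroup Y]
      [Module ℝ Y] (N : Y → ℝ) (δ : S' → Y), IsPBanach p N → (∀ a b, N (δ a - δ b) = dist a b) →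
      (∀ (y : Y) (ε : ℝ), 0 < ε → ∃ z ∈ Submodule.span ℝ (Set.range δ), N (y - z) < ε) →
      (∀ n (g : GG n), ∃ T : Y →ₗ[ℝ] ℝ, (∀ a, T (δ a) = ev D n g a) ∧ ∀ y, |T y| ≤ N y) →
      ¬ HasAP N := by
  classical
  obtain ⟨X, hX, hlin⟩ := cp_galg (V := VV D)
  obtain ⟨u, ⟨S₀, hS0, hu00, hSf⟩, hu1, hu2, hu3⟩ := cp_lift hX (bx_box D) JJ (ee D)
    (norm_ee_le D) (fun n => 4 ^ n) (fun n => by positivity) (ee_mem D)
  refine ⟨S₀, hS0, fun n j => hSf _ (n + 1) fun m hm k => co_ee_ne D (by omega) j k,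
    fun S' hSS p hp hp1 Y _ _ N δ hN hiso hdense hext hAP => ?_⟩
  have hu0 : ∀ n j, u n j ∈ Submodule.span ℝ (X '' S') := fun n j =>
    Submodule.span_mono (Set.image_mono hSS) (hu00 n j)
  have hR := abs_isPBanach hp hp1
  choose E hE1 hE2 using hext
  have hcard : ∀ n, (Fintype.card (GG n) : ℝ) = 2 ^ (n + 2) := by
    intro n; simp
  have havg : ∀ n (s : GG n → ℝ), (∀ g, s g = 1 ∨ s g = -1) → ∀ y,
      |(((2 : ℝ) ^ (n + 2))⁻¹ • ∑ g, s g • E n g) y| ≤ 1 * N y := by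
    intro n s hs y
    have hpos : (0 : ℝ) < 2 ^ (n + 2) := by positivity
    simp only [LinearMap.smul_apply, LinearMap.sum_apply, smul_eq_mul]
    rw [abs_mul, abs_of_pos (inv_pos.2 hpos), inv_mul_le_iff₀ hpos, one_mul]
    refine le_trans (Finset.abs_sum_le_sum_abs _ _) ?_
    have : ∀ g ∈ (univ : Finset (GG n)), |s g * E n g y| ≤ N y := fun g _ => by
      rw [abs_mul, sign_abs (hs g), one_mul]; exact hE2 n g y
    have h2 := Finset.sum_le_card_nsmul _ _ _ this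
    rwa [card_univ, nsmul_eq_mul, hcard] at h2
  let c : ∀ n, JJ n → Y →ₗ[ℝ] ℝ := fun n j => ((2 : ℝ) ^ (n + 2))⁻¹ • ∑ g, D.σ n j g • E n g
  have hc1 : ∀ n j y, |c n j y| ≤ N y := fun n j y =>
    (havg n (D.σ n j) (D.σ_sign n j) y).trans (one_mul _).le
  have hc2 : ∀ n j (a : S'), c n j (δ a) = co D n j a := by
    intro n j a
    simp only [c, LinearMap.smul_apply, LinearMap.sum_apply, smul_eq_mul, hE1]
    rw [co_eq_σ]; field_simp
  have hc3 : ∀ n (j : JJ (n + 1)),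
      c (n + 1) j = ((2 : ℝ) ^ (n + 2))⁻¹ • ∑ g, D.τ n j g • E n g := by
    intro n j
    refine eq_zero_of_dense hN.nonneg hR hp hdense _ _ 1 1 (fun y => by simpa using hc1 _ j y)
      (havg n (D.τ n j) (D.τ_sign n j)) ?_
    rintro _ ⟨a, rfl⟩
    rw [hc2]
    simp only [LinearMap.smul_apply, LinearMap.sum_apply, smul_eq_mul, hE1]
    rw [co_eq_τ]; field_simp
  have hw : ∀ n : ℕ, (0 : ℝ) < ((2 : ℝ) ^ n)⁻¹ := fun n => by positivity
  have havJ : ∀ n (x : JJ n → ℝ) (B : ℝ), (∀ j, x j ≤ B) → ((2 : ℝ) ^ n)⁻¹ * ∑ j, x j ≤ B := by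
    intro n x B hx
    have h2 := Finset.sum_le_card_nsmul univ x B fun j _ => hx j
    rw [card_univ, nsmul_eq_mul, Fintype.card_fin] at h2
    rw [inv_mul_le_iff₀ (by positivity)]
    exact_mod_cast h2
  have hdec : ∀ (y : Y) (ε : ℝ), 0 < ε → ∃ k, ∀ n, k ≤ n →
      ((2 : ℝ) ^ n)⁻¹ * ∑ j, |c n j y| ≤ ε := by
    intro y ε hε
    obtain ⟨z, hz, hyz⟩ := hdense y ε hε
    have : ∃ k, ∀ n, k ≤ n → ∀ j, c n j z = 0 := by
      clear hyz
      induction hz using Submodule.span_induction with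
      | mem x hx =>
        obtain ⟨a, rfl⟩ := hx
        obtain ⟨k, hk⟩ := co_eventually D a
        exact ⟨k, fun n hn j => by rw [hc2, hk n hn j]⟩
      | zero => exact ⟨0, fun n _ j => map_zero _⟩
      | add x y _ _ h1 h2 =>
        obtain ⟨k1, h1⟩ := h1
        obtain ⟨k2, h2⟩ := h2
        exact ⟨max k1 k2, fun n hn j => by
          rw [map_add, h1 n (le_trans (le_max_left _ _) hn), h2 n (le_trans (le_max_right _ _) hn),
            add_zero]⟩
      | smul t x _ h1 =>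
        obtain ⟨k1, h1⟩ := h1
        exact ⟨k1, fun n hn j => by rw [map_smul, h1 n hn, smul_zero]⟩
    obtain ⟨k, hk⟩ := this
    refine ⟨k, fun n hn => havJ n _ ε fun j => ?_⟩
    have h1 := hc1 n j (y - z)
    rw [map_sub, hk n hn j, sub_zero] at h1
    linarith
  -- the group algebra and the lifting
  obtain ⟨ι, hιX⟩ := hlin Y fun v => if h : v ∈ S' then δ ⟨v, h⟩ else 0
  have hι : ∀ x ∈ S', ∀ y ∈ S', N (ι (X x) - ι (X y)) = ‖x - y‖ := fun x hx y hy => by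
    rw [hιX, hιX, dif_pos hx, dif_pos hy, hiso, Subtype.dist_eq, dist_eq_norm]
  have hu4 : ∀ n j, c n j (ι (u n j)) = 1 := by
    intro n j
    obtain ⟨L, hL⟩ := hlin ℝ (co D n j)
    have h1 := hu2 n j L (co D n j) hL
    rw [co_ee_same, if_pos rfl] at h1
    rw [← h1]
    refine LinearMap.eqOn_span (f := (c n j).comp ι) (g := L) ?_ (hu0 n j)
    rintro _ ⟨v, hv, rfl⟩
    rw [LinearMap.comp_apply, hιX, dif_pos hv, hc2, hL]
  choose Fu hFu1 hFu2 hFu3 using fun n j =>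
    cp_finite hN (hlin ℝ) S' ι hι (hu1 n j) (hu0 n j)
  have hΦ : ∀ n (g : GG n), Mol X (∑ j, D.τ n j g • u (n + 1) j + ∑ j, (2 * -D.σ n j g) • u n j)
      (65 * (3 / 2) ^ n) := by
    intro n g
    refine (hu3 n (fun j => -D.σ n j g) (fun j => D.τ n j g)
      (fun j => by rcases D.σ_sign n j g with h | h <;> simp [h]) (fun j => D.τ_sign n j g)).mono ?_
    have h1 := norm_psi_le D n g
    have h2 : (1 : ℝ) ≤ (3 / 2) ^ n := one_le_pow₀ (by norm_num)
    linarith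
  choose F hF1 hF2 hF3 using fun n g => cp_finite hN (hlin ℝ) S' ι hι (hΦ n g)
    (Submodule.add_mem _ (Submodule.sum_mem _ fun j _ => Submodule.smul_mem _ _ (hu0 (n + 1) j))
      (Submodule.sum_mem _ fun j _ => Submodule.smul_mem _ _ (hu0 n j)))
  -- the compact set
  let K : Set Y := ({0} ∪ ⋃ j, Fu 0 j) ∪ ⋃ n, ⋃ g, (fun m => ((7 / 8 : ℝ) ^ n) • m) '' F n g
  have hK : IsCompactFor N K := by
    refine compact_of_null hN K (Or.inl (Or.inl rfl)) fun ε hε => ?_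
    obtain ⟨k, hk⟩ := exists_pow_lt_of_lt_one hε (show (7 / 8 : ℝ) < 1 by norm_num)
    refine Set.Finite.subset (s := ({0} ∪ ⋃ j, Fu 0 j) ∪
      ⋃ n ∈ Finset.range k, ⋃ g, (fun m => ((7 / 8 : ℝ) ^ n) • m) '' F n g) ?_ ?_
    · exact ((Set.finite_singleton _).union (Set.finite_iUnion (hFu1 0))).union
        (Set.Finite.biUnion (Finset.finite_toSet _) fun n _ =>
          Set.finite_iUnion fun g => (hF1 n g).image _)
    · rintro y ⟨hy | hy, hε'⟩
      · exact Or.inl hy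
      · right
        simp only [Set.mem_iUnion] at hy ⊢
        obtain ⟨n, g, m, hm, rfl⟩ := hy
        refine ⟨n, Finset.mem_range.2 ?_, g, m, hm, rfl⟩
        by_contra hn
        push Not at hn
        have h1 : (7 / 8 : ℝ) ^ n ≤ (7 / 8) ^ k :=
          pow_le_pow_of_le_one (by norm_num) (by norm_num) hn
        have h2 : (0 : ℝ) < (7 / 8) ^ n := by positivity
        simp only at hε'
        rw [hN.smul, abs_of_pos h2] at hε'
        nlinarith [hF2 n g m hm]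
  obtain ⟨T, ⟨C, hC⟩, hfin, hT⟩ := hAP K hK (1 / 500) (by norm_num)
  let S : Y →ₗ[ℝ] Y := T - LinearMap.id
  have hS : ∀ y ∈ K, N (S y) ≤ 1 / 500 := fun y hy => (hT y hy).le
  let β : ℕ → ℝ := fun n => ((2 : ℝ) ^ n)⁻¹ * ∑ j, c n j (S (ι (u n j)))
  have hβ0 : |β 0| ≤ 1 / 500 := by
    simp only [β]
    rw [abs_mul, abs_of_pos (hw 0)]
    refine le_trans (mul_le_mul_of_nonneg_left (Finset.abs_sum_le_sum_abs _ _) (hw 0).le) ?_
    refine havJ 0 _ _ fun j => ?_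
    have := hFu3 0 j ((c 0 j).comp S) (1 / 500) (by norm_num) (fun m hm =>
      le_trans (hc1 0 j _) (hS m (Or.inl (Or.inr (Set.mem_iUnion.2 ⟨j, hm⟩)))))
    simpa using this
  have hstep : ∀ n, |β (n + 1) - β n| ≤ 33 * (6 / 7) ^ n * (1 / 500) := by
    intro n
    have e1 : β (n + 1) - β n = ((2 : ℝ) ^ (n + 1))⁻¹ * (((2 : ℝ) ^ (n + 2))⁻¹ *
        ∑ g, E n g (S (ι (∑ j, D.τ n j g • u (n + 1) j + ∑ j, (2 * -D.σ n j g) • u n j)))) := by
      simp only [β]
      simp only [hc3]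
      simp only [c, LinearMap.smul_apply, LinearMap.sum_apply, smul_eq_mul, map_add, map_sum,
        map_smul, Finset.sum_add_distrib, ← Finset.mul_sum]
      rw [Finset.sum_comm (s := (univ : Finset (JJ (n + 1)))),
        Finset.sum_comm (s := (univ : Finset (JJ n)))]
      have e2 : ∑ g, ∑ j, 2 * -D.σ n j g * E n g (S (ι (u n j))) =
          -2 * ∑ g, ∑ j, D.σ n j g * E n g (S (ι (u n j))) := by
        rw [Finset.mul_sum]
        refine Finset.sum_congr rfl fun g _ => ?_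
        rw [Finset.mul_sum]
        exact Finset.sum_congr rfl fun j _ => by ring
      rw [e2, pow_succ (2 : ℝ) n]
      field_simp
      ring
    have hl : (0 : ℝ) < (7 / 8) ^ n := by positivity
    have h1 : ∀ g ∈ (univ : Finset (GG n)), |E n g (S (ι (∑ j, D.τ n j g • u (n + 1) j +
        ∑ j, (2 * -D.σ n j g) • u n j)))| ≤ 65 * (3 / 2) ^ n * (((7 / 8) ^ n)⁻¹ * (1 / 500)) := by
      intro g _
      refine hF3 n g ((E n g).comp S) _ (by positivity) fun m hm => ?_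
      have h2 := le_trans (hE2 n g _) (hS (((7 / 8 : ℝ) ^ n) • m)
        (Or.inr (Set.mem_iUnion.2 ⟨n, Set.mem_iUnion.2 ⟨g, m, hm, rfl⟩⟩)))
      rw [map_smul, map_smul, smul_eq_mul, abs_mul, abs_of_pos hl] at h2
      rw [LinearMap.comp_apply, le_inv_mul_iff₀ hl]
      exact h2
    have h2 := le_trans (Finset.abs_sum_le_sum_abs _ _) (Finset.sum_le_card_nsmul _ _ _ h1)
    rw [card_univ, nsmul_eq_mul, hcard] at h2
    rw [e1, abs_mul, abs_mul, abs_of_pos (hw _), abs_of_pos (hw _)]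
    have h3 := mul_le_mul_of_nonneg_left (mul_le_mul_of_nonneg_left h2 (hw (n + 2)).le)
      (hw (n + 1)).le
    refine le_trans h3 ?_
    have e3 : (6 / 7 : ℝ) ^ n = ((2 : ℝ) ^ n)⁻¹ * (3 / 2) ^ n * ((7 / 8) ^ n)⁻¹ := by
      rw [← inv_pow, ← inv_pow, ← mul_pow, ← mul_pow]; norm_num
    have e4 : ((2 : ℝ) ^ (n + 1))⁻¹ * (((2 : ℝ) ^ (n + 2))⁻¹ * (2 ^ (n + 2) *
        (65 * (3 / 2) ^ n * (((7 / 8) ^ n)⁻¹ * (1 / 500))))) =
        65 / 2 * (6 / 7) ^ n * (1 / 500) := by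
      rw [e3, pow_succ (2 : ℝ) n]; field_simp
    rw [e4]
    have : (0 : ℝ) < (6 / 7) ^ n := by positivity
    nlinarith
  have hβ : ∀ n, |β n| ≤ (1 + 231 * (1 - (6 / 7) ^ n)) * (1 / 500) := by
    intro n
    induction n with
    | zero => simpa using hβ0
    | succ n ih =>
      have h1 := hstep n
      have h2 : |β (n + 1)| ≤ |β (n + 1) - β n| + |β n| := by
        simpa using abs_add_le (β (n + 1) - β n) (β n)
      rw [pow_succ]
      linarith
  obtain ⟨k, hk⟩ := findim_decay JJ (fun n => ((2 : ℝ) ^ n)⁻¹) (fun n => (hw n).le) c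
    (fun y => ⟨N y, fun n j => hc1 n j y⟩) hdec _ (LinearMap.range T) hfin le_rfl |C| (1 / 4)
    (by norm_num)
  have h1 := hk k le_rfl (fun j => T (ι (u k j))) (fun j => LinearMap.mem_range_self _ _)
    (fun j m i => by
      have := hFu3 k j ((c m i).comp T) |C| (abs_nonneg C) (fun y hy => by
        refine le_trans (hc1 m i _) (le_trans (hC y) ?_)
        calc C * N y ≤ |C| * N y := mul_le_mul_of_nonneg_right (le_abs_self C) (hN.nonneg y)
          _ ≤ |C| * 1 := mul_le_mul_of_nonneg_left (hFu2 k j y hy) (abs_nonneg C)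
          _ = |C| := mul_one _)
      simpa using this)
  have e1 : β k = ((2 : ℝ) ^ k)⁻¹ * ∑ j, c k j (T (ι (u k j))) - 1 := by
    simp only [β, S, LinearMap.sub_apply, LinearMap.id_apply, map_sub, hu4,
      Finset.sum_sub_distrib, Finset.sum_const, card_univ, Fintype.card_fin, nsmul_eq_mul]
    push_cast
    field_simp
  have h2 : ((2 : ℝ) ^ k)⁻¹ * ∑ j, c k j (T (ι (u k j))) ≤ 1 / 4 :=
    le_trans (mul_le_mul_of_nonneg_left (Finset.sum_le_sum fun j _ => le_abs_self _) (hw k).le) h1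
  have h3 := hβ k
  have h4 : (0 : ℝ) < (6 / 7) ^ k := by positivity
  have h5 := neg_abs_le (β k)
  linarith

end Pool.Agent.Work.MP_f25c59_an
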