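import Pool.Agent.Work.MP_f25c59_an.Main

/-!
The discrete lifting of `Main`, with control of the supports.
-/

set_option autoImplicit false
set_option linter.unusedSectionVars false

namespace Pool.Agent.Work.MP_f25c59_an

open Finset

variable {V : Type} [NormedAddCommGroup V] [NormedSpace ℝ V]
variable {A : Type} [CommRing A] [Algebra ℝ A]

/-- A family of boxes, additive in the size. -/
structure Box (B : ℝ → Set V) : Prop where
  zero : (0 : V) ∈ B 0
  add : ∀ {r s : ℝ} {x y : V}, x ∈ B r → y ∈ B s → x + y ∈ B (r + s)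
  mono : ∀ {r s : ℝ}, r ≤ s → B r ⊆ B s
  smul : ∀ {r : ℝ} {x : V} (c : ℝ), 0 ≤ c → x ∈ B r → c • x ∈ B (c * r)

/-- Combinations of the `X z` with `z` in the box of size `r`. -/
def Sup (X : V → A) (B : ℝ → Set V) (r : ℝ) : Submodule ℝ A := Submodule.span ℝ (X '' B r)

variable {X : V → A} {B : ℝ → Set V}

lemma sup_mono (hB : Box B) {r s : ℝ} (h : r ≤ s) {μ : A} (hμ : μ ∈ Sup X B r) : μ ∈ Sup X B s :=
  Submodule.span_mono (Set.image_mono (hB.mono h)) hμ

lemma sup_single {r : ℝ} {x : V} (h : x ∈ B r) : X x ∈ Sup X B r :=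
  Submodule.subset_span ⟨x, h, rfl⟩

lemma sup_one (hX : IsChar X) (hB : Box B) : (1 : A) ∈ Sup X B 0 :=
  hX.zero ▸ sup_single hB.zero

lemma sup_mul (hX : IsChar X) (hB : Box B) {r s : ℝ} {μ ν : A} (hμ : μ ∈ Sup X B r)
    (hν : ν ∈ Sup X B s) : μ * ν ∈ Sup X B (r + s) := by
  have h := Submodule.mul_mem_mul hμ hν
  rw [Sup, Sup, Submodule.span_mul_span] at h
  refine Submodule.span_mono ?_ h
  rintro _ ⟨_, ⟨x, hx, rfl⟩, _, ⟨y, hy, rfl⟩, rfl⟩
  exact ⟨x + y, hB.add hx hy, hX.add x y⟩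

lemma sup_avg (hX : IsChar X) (hB : Box B) {r : ℝ} (hr : 0 ≤ r) {x : V} (hx : x ∈ B r) (R : ℕ) :
    avg X x R ∈ Sup X B r := by
  have : ∀ R : ℕ, avg X x R ∈ Sup X B ((1 - (1 / 2 : ℝ) ^ R) * r) := by
    intro R
    induction R with
    | zero => simpa [avg] using sup_one hX hB
    | succ R ih =>
      have h1 : bern X (((1 / 2 : ℝ) ^ (R + 1)) • x) ∈ Sup X B ((1 / 2 : ℝ) ^ (R + 1) * r) :=
        Submodule.smul_mem _ _ (Submodule.add_mem _
          (sup_mono hB (by positivity) (sup_one hX hB))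
          (sup_single (hB.smul _ (by positivity) hx)))
      exact sup_mono hB (le_of_eq (by ring)) (sup_mul hX hB ih h1)
  refine sup_mono hB ?_ (this R)
  have h1 : (0 : ℝ) < (1 / 2) ^ R := by positivity
  nlinarith

lemma sup_prod (hX : IsChar X) (hB : Box B) {ι : Type} (s : Finset ι) (P : ι → A) (r : ℝ)
    (h : ∀ i ∈ s, P i ∈ Sup X B r) : ∏ i ∈ s, P i ∈ Sup X B (s.card * r) := by
  classical
  induction s using Finset.induction_on with
  | empty => simpa using sup_one hX hB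
  | insert i s hi ih =>
    rw [prod_insert hi, card_insert_of_notMem hi]
    refine sup_mono hB (le_of_eq ?_) (sup_mul hX hB (h i (mem_insert_self i s))
      (ih fun j hj => h j (mem_insert_of_mem hj)))
    push_cast; ring

lemma sup_fin {S : Set V} {μ : A} (h : μ ∈ Submodule.span ℝ (X '' S)) :
    ∃ Z : Set V, Z.Finite ∧ Z ⊆ S ∧ μ ∈ Submodule.span ℝ (X '' Z) := by
  classical
  obtain ⟨T, hT1, hT2⟩ := Submodule.mem_span_finite_of_mem_span h
  obtain ⟨S0, h01, rfl⟩ := Finset.subset_set_image_iff.1 hT1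
  exact ⟨S0, S0.finite_toSet, h01, by simpa using hT2⟩

lemma span_mul (hX : IsChar X) {S T : Set V} {μ ν : A} (hμ : μ ∈ Submodule.span ℝ (X '' S))
    (hν : ν ∈ Submodule.span ℝ (X '' T)) :
    μ * ν ∈ Submodule.span ℝ (X '' Set.image2 (· + ·) S T) := by
  have h := Submodule.mul_mem_mul hμ hν
  rw [Submodule.span_mul_span] at h
  refine Submodule.span_mono ?_ h
  rintro _ ⟨_, ⟨x, hx, rfl⟩, _, ⟨y, hy, rfl⟩, rfl⟩
  exact ⟨x + y, ⟨x, hx, y, hy, rfl⟩, hX.add x y⟩

/-- The part of a box killed by all functionals that kill two given families. -/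
def Cut (B : ℝ → Set V) {J J' : Type} (e : J → V) (e' : J' → V) (r : ℝ) : Set V :=
  {v | v ∈ B r ∧ ∀ c : V →ₗ[ℝ] ℝ, (∀ k, c (e k) = 0) → (∀ k, c (e' k) = 0) → c v = 0}

lemma cut_box (hB : Box B) {J J' : Type} (e : J → V) (e' : J' → V) : Box (Cut B e e') where
  zero := ⟨hB.zero, fun c _ _ => map_zero c⟩
  add := fun hx hy => ⟨hB.add hx.1 hy.1, fun c h1 h2 => by
    rw [map_add, hx.2 c h1 h2, hy.2 c h1 h2, add_zero]⟩
  mono := fun h _ hv => ⟨hB.mono h hv.1, hv.2⟩
  smul := fun t ht hx => ⟨hB.smul t ht hx.1, fun c h1 h2 => by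
    rw [map_smul, hx.2 c h1 h2, smul_zero]⟩

/-- One refinement step, with control of the support. -/
lemma cp_refine (hX : IsChar X) (hB0 : Box B) {J J' : Type} [Fintype J] [Fintype J'] (e : J → V) (e' : J' → V)
    (he : ∀ j, ‖e j‖ ≤ 1) (he' : ∀ j, ‖e' j‖ ≤ 1) (P : A) (t K : ℝ) (hP : ∃ ρ, Prob X P ρ)
    (ht : 0 < t) (hK : 0 ≤ K) (hL : ∀ j, L1 X (P * (X (t • e j) - 1)) (K * t)) (b : ℝ)
    (hb : 0 < b) (w w' : ℝ) (hw : 0 ≤ w) (hw' : 0 ≤ w') (hew : ∀ j, e j ∈ B w)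
    (hew' : ∀ j, e' j ∈ B w') :
    ∃ (P' : A) (t' : ℝ), (∃ ρ, Prob X P' ρ) ∧ 0 < t' ∧ t' ≤ b ∧
      (∃ Q ∈ Sup X B (t * (Fintype.card J * w + Fintype.card J' * w')), P' = P * Q) ∧
      (∀ j, L1 X (P' * (X ((2 * t') • e j) - 1)) ((K + 2 / t) * (2 * t'))) ∧
      (∀ j, L1 X (P' * (X (t' • e' j) - 1)) ((K + 2 / t) * t')) ∧
      ∀ j, Mol X ((2 * t')⁻¹ • (P' * (X ((2 * t') • e j) - 1)) - t⁻¹ • (P * (X (t • e j) - 1)))
        (K * t * (Fintype.card J + Fintype.card J')) := by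
  classical
  obtain ⟨ρ, hP⟩ := hP
  obtain ⟨R, hR⟩ := exists_pow_lt_of_lt_one (show 0 < b / t by positivity)
    (show (1 / 2 : ℝ) < 1 by norm_num)
  have hpr : ∀ j, Prob X (avg X (t • e j) R) t := fun j => (avg_prob _ R).mono (by
    rw [norm_smul, Real.norm_eq_abs, abs_of_pos ht]; nlinarith [he j])
  have hpr' : ∀ j, Prob X (avg X (t • e' j) (R + 1)) t := fun j => (avg_prob _ _).mono (by
    rw [norm_smul, Real.norm_eq_abs, abs_of_pos ht]; nlinarith [he' j])
  have hR0 : (0 : ℝ) < (1 / 2) ^ R := by positivity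
  have hKt : 0 < 2 / t := by positivity
  refine ⟨P * (∏ j, avg X (t • e j) R) * ∏ j, avg X (t • e' j) (R + 1), (1 / 2) ^ (R + 1) * t,
    ⟨_, (hP.mul (Prob.prod _ _ t fun j _ => hpr j)).mul (Prob.prod _ _ t fun j _ => hpr' j)⟩,
    by positivity, ?_, ?_, ?_, ?_, ?_⟩
  · rw [lt_div_iff₀ ht] at hR
    rw [pow_succ]
    nlinarith
  · have h1 := sup_prod hX hB0 univ (fun j => avg X (t • e j) R) (t * w) fun j _ =>
      sup_avg hX hB0 (by positivity) (hB0.smul t ht.le (hew j)) R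
    have h2 := sup_prod hX hB0 univ (fun j => avg X (t • e' j) (R + 1)) (t * w') fun j _ =>
      sup_avg hX hB0 (by positivity) (hB0.smul t ht.le (hew' j)) (R + 1)
    refine ⟨_, sup_mono hB0 (le_of_eq ?_) (sup_mul hX hB0 h1 h2), mul_assoc _ _ _⟩
    rw [card_univ, card_univ]
    ring
  all_goals
    intro j
  · have hB := (Prob.prod (univ.erase j) _ t fun i _ => hpr i).mul
      (Prob.prod univ _ t fun i _ => hpr' i)
    have e1 : (2 * ((1 / 2 : ℝ) ^ (R + 1) * t)) • e j = ((1 / 2 : ℝ) ^ R) • t • e j := by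
      rw [smul_smul]; congr 1; ring
    have e2 : P * (∏ j, avg X (t • e j) R) * (∏ j, avg X (t • e' j) (R + 1)) *
        (X (((1 / 2 : ℝ) ^ R) • t • e j) - 1) = ((1 / 2 : ℝ) ^ R) • ((P * (X (t • e j) - 1)) *
        ((∏ i ∈ univ.erase j, avg X (t • e i) R) * ∏ j, avg X (t • e' j) (R + 1))) := by
      rw [← Finset.mul_prod_erase univ _ (mem_univ j), ← smul_mul_assoc, ← mul_smul_comm,
        ← avg_mul hX]
      ring
    rw [e1, e2]
    refine (((hL j).mul hX (hB.l1 hX)).smul _).mono ?_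
    rw [abs_of_pos hR0, pow_succ]
    have : 0 ≤ (1 / 2 : ℝ) ^ R * (2 / t * t) := by positivity
    nlinarith
  · have hB := hP.mul ((Prob.prod univ _ t fun i _ => hpr i).mul
      (Prob.prod (univ.erase j) _ t fun i _ => hpr' i))
    have e1 : ((1 / 2 : ℝ) ^ (R + 1) * t) • e' j = ((1 / 2 : ℝ) ^ (R + 1)) • t • e' j := by
      rw [smul_smul]
    have e2 : P * (∏ j, avg X (t • e j) R) * (∏ j, avg X (t • e' j) (R + 1)) *
        (X (((1 / 2 : ℝ) ^ (R + 1)) • t • e' j) - 1) = ((1 / 2 : ℝ) ^ (R + 1)) •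
        ((X (t • e' j) - 1) * (P * ((∏ i, avg X (t • e i) R) *
          ∏ i ∈ univ.erase j, avg X (t • e' i) (R + 1)))) := by
      rw [← Finset.mul_prod_erase univ _ (mem_univ j), ← smul_mul_assoc, ← avg_mul hX]
      ring
    rw [e1, e2]
    refine (((L1.X_sub_one hX _).mul hX (hB.l1 hX)).smul _).mono ?_
    have hR1 : (0 : ℝ) < (1 / 2) ^ (R + 1) := by positivity
    rw [abs_of_pos hR1]
    have e3 : (K + 2 / t) * ((1 / 2 : ℝ) ^ (R + 1) * t) =
        (1 / 2 : ℝ) ^ (R + 1) * (K * t) + (1 / 2 : ℝ) ^ (R + 1) * (2 * 1) := by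
      field_simp
    rw [e3]
    have : 0 ≤ (1 / 2 : ℝ) ^ (R + 1) * (K * t) := by positivity
    linarith
  · have hB := (Prob.prod (univ.erase j) _ t fun i _ => hpr i).mul
      (Prob.prod univ _ t fun i _ => hpr' i)
    have e1 : (2 * ((1 / 2 : ℝ) ^ (R + 1) * t)) • e j = ((1 / 2 : ℝ) ^ R) • t • e j := by
      rw [smul_smul]; congr 1; ring
    have e2 : P * (∏ j, avg X (t • e j) R) * (∏ j, avg X (t • e' j) (R + 1)) *
        (X (((1 / 2 : ℝ) ^ R) • t • e j) - 1) = ((1 / 2 : ℝ) ^ R) • ((P * (X (t • e j) - 1)) *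
        ((∏ i ∈ univ.erase j, avg X (t • e i) R) * ∏ j, avg X (t • e' j) (R + 1))) := by
      rw [← Finset.mul_prod_erase univ _ (mem_univ j), ← smul_mul_assoc, ← mul_smul_comm,
        ← avg_mul hX]
      ring
    have e3 : (2 * ((1 / 2 : ℝ) ^ (R + 1) * t))⁻¹ * (1 / 2 : ℝ) ^ R = t⁻¹ := by
      rw [pow_succ]; field_simp
    rw [e1, e2, smul_smul, e3, ← smul_sub, ← mul_sub_one]
    refine ((hB.mol hX (hL j)).smul _).mono ?_
    rw [abs_of_pos (inv_pos.2 ht), card_univ]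
    have h1 : ((univ.erase j).card : ℝ) ≤ Fintype.card J := by
      exact_mod_cast card_le_univ _
    have e4 : t⁻¹ * (K * t * (((univ.erase j).card : ℝ) * t + Fintype.card J' * t)) =
        K * t * (((univ.erase j).card : ℝ) + Fintype.card J') := by field_simp
    rw [e4]
    exact mul_le_mul_of_nonneg_left (by linarith) (by positivity)

/-- The lifting, with control of the support. -/
theorem cp_lift (hX : IsChar X) (hB0 : Box B) (J : ℕ → Type) [∀ n, Fintype (J n)] (e : ∀ n, J n → V)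
    (he : ∀ n j, ‖e n j‖ ≤ 1) (w : ℕ → ℝ) (hw : ∀ n, 0 ≤ w n) (hew : ∀ n j, e n j ∈ B (w n)) :
    ∃ u : ∀ n, J n → A, (∃ S ⊆ B 4, (∀ n j, u n j ∈ Submodule.span ℝ (X '' S)) ∧
        ∀ (c : V →ₗ[ℝ] ℝ) (k : ℕ), (∀ n, k ≤ n → ∀ j, c (e n j) = 0) → (c '' S).Finite) ∧
      (∀ n j, Mol X (u n j) 1) ∧
      (∀ n j (ℓ : A →ₗ[ℝ] ℝ) (c : V →ₗ[ℝ] ℝ), (∀ v, ℓ (X v) = c v) → ℓ (u n j) = c (e n j)) ∧
      ∀ n (θ : J n → ℝ) (θ' : J (n + 1) → ℝ), (∀ j, θ j = 1 ∨ θ j = -1) →
        (∀ j, θ' j = 1 ∨ θ' j = -1) →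
        Mol X (∑ j, θ' j • u (n + 1) j + ∑ j, (2 * θ j) • u n j)
          (‖∑ j, θ' j • e (n + 1) j + ∑ j, (2 * θ j) • e n j‖ + 1) := by
  classical
  let m : ℕ → ℝ := fun n => (Fintype.card (J n) : ℝ) + Fintype.card (J (n + 1))
  have hm : ∀ n, 0 ≤ m n := fun n => by positivity
  let D : ℕ → ℝ := fun n => 4 * m n ^ 2 + Fintype.card (J (n + 1)) * m (n + 1)
  have hD : ∀ n, 0 ≤ D n := fun n => by have := hm (n + 1); positivity
  let μ : ℕ → ℝ := fun n => Fintype.card (J n) * w n + Fintype.card (J (n + 1)) * w (n + 1)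
  have hμ : ∀ n, 0 ≤ μ n := fun n => by have := hw n; have := hw (n + 1); positivity
  let Good : ℕ → A × ℝ × ℝ → Prop := fun n s =>
    (∃ ρ, Prob X s.1 ρ) ∧ 0 < s.2.1 ∧ 0 ≤ s.2.2 ∧
      s.2.1 * μ n ≤ (1 / 2) ^ n ∧
      ∀ j, L1 X (s.1 * (X (s.2.1 • e n j) - 1)) (s.2.2 * s.2.1)
  let Rel : ℕ → A × ℝ × ℝ → A × ℝ × ℝ → Prop := fun n s s' =>
    (s'.2.2 * s'.2.1 * D n ≤ 1 ∧ s'.2.1 * w n ≤ 1 ∧
      ∃ Q ∈ Sup X (Cut B (e n) (e (n + 1))) ((1 / 2) ^ n), s'.1 = s.1 * Q) ∧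
      (∀ j, L1 X (s'.1 * (X ((2 * s'.2.1) • e n j) - 1)) (s'.2.2 * (2 * s'.2.1))) ∧
      ∀ j, Mol X ((2 * s'.2.1)⁻¹ • (s'.1 * (X ((2 * s'.2.1) • e n j) - 1)) -
        s.2.1⁻¹ • (s.1 * (X (s.2.1 • e n j) - 1))) (s.2.2 * s.2.1 * m n)
  have hstep : ∀ n (s : {s // Good n s}), ∃ s' : {s // Good (n + 1) s}, Rel n s.1 s'.1 := by
    rintro n ⟨⟨P, t, K⟩, hP, ht, hK, hS2, hL⟩
    dsimp only at hP ht hK hL hS2
    have hK' : 0 < K + 2 / t := by positivity
    have hDn := hD n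
    have hμn := hμ (n + 1)
    have hwn := hw n
    obtain ⟨P', t', g1, g2, g3, ⟨Q, g7, g8⟩, g4, g5, g6⟩ := cp_refine hX
      (cut_box hB0 (e n) (e (n + 1))) (e n) (e (n + 1)) (he n)
      (he (n + 1)) P t K hP ht hK hL (min (1 / ((K + 2 / t) * (D n + 1)))
        (min ((1 / 2) ^ (n + 1) / (μ (n + 1) + 1)) (1 / (w n + 1)))) (by positivity)
      (w n) (w (n + 1)) hwn (hw (n + 1)) (fun j => ⟨hew n j, fun c h _ => h j⟩)
      (fun j => ⟨hew (n + 1) j, fun c _ h => h j⟩)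
    rw [le_min_iff, le_min_iff, le_div_iff₀ (by positivity), le_div_iff₀ (by positivity),
      le_div_iff₀ (by positivity)] at g3
    obtain ⟨g31, g32, g33⟩ := g3
    refine ⟨⟨(P', t', K + 2 / t), g1, g2, hK'.le, ?_, g5⟩,
      ⟨?_, ?_, Q, sup_mono (cut_box hB0 _ _) hS2 g7, g8⟩, g4, g6⟩
    · dsimp only
      nlinarith
    · dsimp only
      nlinarith [mul_pos hK' g2]
    · dsimp only
      nlinarith
  choose nxt hnxt using hstep
  have hμ0 : 0 < μ 0 + 1 := by have := hμ 0; positivity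
  have h0 : Good 0 (1, 1 / (μ 0 + 1), 2 * (μ 0 + 1)) := by
    refine ⟨⟨0, Prob.one⟩, by positivity, by positivity, ?_, fun j => ?_⟩
    · dsimp only
      rw [pow_zero, one_div, inv_mul_le_iff₀ hμ0]
      linarith
    · dsimp only
      rw [one_mul]
      refine (L1.X_sub_one hX _).mono (le_of_eq ?_)
      field_simp
  let st : ∀ n, {s // Good n s} := fun n => Nat.rec (motive := fun n => {s // Good n s})
    ⟨_, h0⟩ (fun n s => nxt n s) n
  have hst : ∀ n, Rel n (st n).1 (st (n + 1)).1 := fun n => hnxt n (st n)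
  let P : ℕ → A := fun n => (st n).1.1
  let t : ℕ → ℝ := fun n => (st n).1.2.1
  let K : ℕ → ℝ := fun n => (st n).1.2.2
  have hP : ∀ n, ∃ ρ, Prob X (P n) ρ := fun n => (st n).2.1
  have ht : ∀ n, 0 < t n := fun n => (st n).2.2.1
  have hK : ∀ n, 0 ≤ K n := fun n => (st n).2.2.2.1
  have hL : ∀ n j, L1 X (P n * (X (t n • e n j) - 1)) (K n * t n) := fun n => (st n).2.2.2.2.2
  have hP0 : P 0 = 1 := rfl
  have hQ : ∀ n, ∃ Q ∈ Sup X (Cut B (e n) (e (n + 1))) ((1 / 2) ^ n), P (n + 1) = P n * Q :=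
    fun n => (hst n).1.2.2
  have hSw : ∀ n, t (n + 1) * w n ≤ 1 := fun n => (hst n).1.2.1
  have hS : ∀ n, K (n + 1) * t (n + 1) * D n ≤ 1 := fun n => (hst n).1.1
  have hL2 : ∀ n j, L1 X (P (n + 1) * (X ((2 * t (n + 1)) • e n j) - 1))
      (K (n + 1) * (2 * t (n + 1))) := fun n => (hst n).2.1
  have hM : ∀ n j, Mol X ((2 * t (n + 1))⁻¹ • (P (n + 1) * (X ((2 * t (n + 1)) • e n j) - 1)) -
      (t n)⁻¹ • (P n * (X (t n • e n j) - 1))) (K n * t n * m n) := fun n => (hst n).2.2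
  clear_value P t K
  refine ⟨fun n j => (2 * t (n + 1))⁻¹ • (P (n + 1) * (X ((2 * t (n + 1)) • e n j) - 1)),
    ?_, ?_, ?_, ?_⟩
  · choose Q hQ1 hQ2 using hQ
    choose Z hZ1 hZ2 hZ3 using fun n => sup_fin (hQ1 n)
    let T : ℕ → Set V := fun k => Nat.rec {0} (fun k T => Set.image2 (· + ·) T (Z k)) k
    have hT : ∀ k, T (k + 1) = Set.image2 (· + ·) (T k) (Z k) := fun _ => rfl
    have hT0 : T 0 = {0} := rfl
    clear_value T
    have hT1 : ∀ k, (T k).Finite := by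
      intro k
      induction k with
      | zero => rw [hT0]; exact Set.finite_singleton _
      | succ k ih => rw [hT]; exact ih.image2 _ (hZ1 k)
    have hT2 : ∀ k, T k ⊆ B (2 - 2 * (1 / 2) ^ k) := by
      intro k
      induction k with
      | zero => rw [hT0]; simpa using hB0.zero
      | succ k ih =>
        rw [hT]
        rintro _ ⟨x, hx, z, hz, rfl⟩
        exact hB0.mono (le_of_eq (by ring)) (hB0.add (ih hx) (hZ2 k hz).1)
    have hT3 : ∀ k, P k ∈ Submodule.span ℝ (X '' T k) := by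
      intro k
      induction k with
      | zero => rw [hT0, hP0]; exact Submodule.subset_span ⟨0, rfl, hX.zero⟩
      | succ k ih => rw [hT, hQ2]; exact span_mul hX ih (hZ3 k)
    have hT4 : ∀ k, T k ⊆ B 2 := fun k => (hT2 k).trans (hB0.mono (by
      have : (0 : ℝ) < (1 / 2) ^ k := by positivity
      linarith))
    let U : ℕ → Set V := fun n => Set.image2 (· + ·) (T (n + 1))
      (insert 0 (Set.range fun j => (2 * t (n + 1)) • e n j))
    refine ⟨⋃ n, U n, Set.iUnion_subset fun n => ?_, fun n j => ?_, fun c k hc => ?_⟩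
    · rintro _ ⟨x, hx, y, hy | ⟨j, rfl⟩, rfl⟩
      · exact hB0.mono (by norm_num) (hB0.add (hT4 _ hx) (hy ▸ hB0.zero))
      · have h2 : 0 ≤ 2 * t (n + 1) := by have := ht (n + 1); positivity
        exact hB0.mono (by linarith [hSw n]) (hB0.add (hT4 _ hx) (hB0.smul _ h2 (hew n j)))
    · refine Submodule.smul_mem _ _ (Submodule.span_mono (Set.image_mono (Set.subset_iUnion U n))
        (span_mul hX (hT3 (n + 1)) (Submodule.sub_mem _ ?_ ?_)))
      · exact Submodule.subset_span ⟨_, Or.inr ⟨j, rfl⟩, rfl⟩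
      · exact Submodule.subset_span ⟨0, Or.inl rfl, hX.zero⟩
    · have h1 : ∀ m, ∀ x ∈ T m, c x ∈ ⋃ i ∈ Set.Iic k, c '' T i := by
        intro m
        induction m with
        | zero => exact fun x hx => Set.mem_biUnion (Nat.zero_le k) ⟨x, hx, rfl⟩
        | succ m ih =>
          intro x hx
          rcases le_or_gt (m + 1) k with hm | hm
          · exact Set.mem_biUnion hm ⟨x, hx, rfl⟩
          · rw [hT] at hx
            obtain ⟨y, hy, z, hz, rfl⟩ := hx
            have h2 := (hZ2 m hz).2 c (hc m (by omega)) (hc (m + 1) (by omega))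
            dsimp only
            rw [map_add, h2, add_zero]
            exact ih y hy
      refine Set.Finite.subset (s := (⋃ i ∈ Set.Iic k, c '' T i) ∪ ⋃ i ∈ Set.Iic k, c '' U i)
        (((Set.finite_Iic k).biUnion fun i _ => (hT1 i).image _).union
          ((Set.finite_Iic k).biUnion fun i _ =>
            ((hT1 _).image2 _ ((Set.finite_range _).insert _)).image _)) ?_
      rintro _ ⟨x, hx, rfl⟩
      obtain ⟨n, hn⟩ := Set.mem_iUnion.1 hx
      rcases le_or_gt n k with hm | hm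
      · exact Or.inr (Set.mem_biUnion hm ⟨x, hn, rfl⟩)
      · left
        obtain ⟨y, hy, z, hz, rfl⟩ := hn
        have h2 : c z = 0 := by
          rcases hz with rfl | ⟨j, rfl⟩
          · exact map_zero c
          · rw [map_smul, hc n hm.le, smul_zero]
        dsimp only
        rw [map_add, h2, add_zero]
        exact h1 _ y hy
  · intro n j
    obtain ⟨ρ, hρ⟩ := hP (n + 1)
    have h2 : 0 < 2 * t (n + 1) := by have := ht (n + 1); positivity
    refine (((hρ.l1 hX).mol hX _).smul _).mono ?_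
    rw [abs_of_pos (inv_pos.2 h2), norm_smul, Real.norm_eq_abs, abs_of_pos h2, one_mul,
      ← mul_assoc, inv_mul_cancel₀ h2.ne', one_mul]
    exact he n j
  · intro n j ℓ c hℓ
    obtain ⟨ρ, hρ⟩ := hP (n + 1)
    have h2 : 0 < 2 * t (n + 1) := by have := ht (n + 1); positivity
    have := hρ.bary hX ℓ c hℓ ((2 * t (n + 1)) • e n j) 0
    rw [hX.zero, one_mul] at this
    rw [map_smul, this, map_smul, smul_eq_mul, smul_eq_mul, ← mul_assoc, inv_mul_cancel₀ h2.ne',
      one_mul]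
  · intro n θ θ' hθ hθ'
    obtain ⟨ρ, hρ⟩ := hP (n + 1)
    have htn := ht (n + 1)
    have hKn := hK (n + 1)
    set s := t (n + 1) with hs
    set ψ := ∑ j, θ' j • e (n + 1) j + ∑ j, (2 * θ j) • e n j with hψ
    have h1 := stage hX (ι := J (n + 1) ⊕ J n) (P (n + 1))
      (Sum.elim (fun j => s • e (n + 1) j) (fun j => (2 * s) • e n j)) (Sum.elim θ' θ)
      (K (n + 1) * (2 * s)) (2 * s) (by rintro (j | j); exacts [hθ' j, hθ j])
      (by
        rintro (j | j)
        · exact (hL (n + 1) j).mono (by nlinarith)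
        · exact hL2 n j)
      (by
        rintro (j | j)
        · simp only [Sum.elim_inl]
          rw [norm_smul, Real.norm_eq_abs, abs_of_pos htn]; nlinarith [he (n + 1) j]
        · simp only [Sum.elim_inr]
          rw [norm_smul, Real.norm_eq_abs, abs_of_pos (by positivity)]; nlinarith [he n j]) univ
    rw [Fintype.sum_sum_type, Fintype.sum_sum_type] at h1
    simp only [Sum.elim_inl, Sum.elim_inr] at h1
    have e1 : ∑ j, θ' j • s • e (n + 1) j + ∑ j, θ j • (2 * s) • e n j = s • ψ := by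
      rw [hψ, smul_add, Finset.smul_sum, Finset.smul_sum]
      congr 1
      · exact Finset.sum_congr rfl fun j _ => smul_comm _ _ _
      · refine Finset.sum_congr rfl fun j _ => ?_
        rw [smul_smul, smul_smul]; congr 1; ring
    rw [e1] at h1
    have h2 := (hρ.l1 hX).mol hX (s • ψ)
    have h3 := (h1.add h2).smul s⁻¹
    have h4 := Mol.sum univ (fun j => θ' j • ((2 * t (n + 1 + 1))⁻¹ • (P (n + 1 + 1) *
        (X ((2 * t (n + 1 + 1)) • e (n + 1) j) - 1)) - s⁻¹ • (P (n + 1) * (X (s • e (n + 1) j) - 1))))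
        (K (n + 1) * s * m (n + 1)) (fun j _ => by
          refine ((hM (n + 1) j).smul (θ' j)).mono (le_of_eq ?_)
          rcases hθ' j with h | h <;> simp [h, hs])
    convert (h3.add h4).mono (b := ‖ψ‖ + 1) ?_ using 1
    · rw [sub_add_cancel, smul_add, Finset.smul_sum, Finset.smul_sum, add_right_comm,
        ← Finset.sum_add_distrib]
      congr 1
      · refine Finset.sum_congr rfl fun j _ => ?_
        rw [smul_sub, smul_comm s⁻¹ (θ' j), add_sub_cancel]
      · refine Finset.sum_congr rfl fun j _ => ?_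
        rw [smul_smul, smul_smul, ← hs]; congr 1; field_simp
    · rw [abs_of_pos (inv_pos.2 htn), norm_smul, Real.norm_eq_abs, abs_of_pos htn, card_univ,
        card_univ, Fintype.card_sum]
      have h5 := hS n
      have e2 : s⁻¹ * ((((Fintype.card (J (n + 1)) + Fintype.card (J n) : ℕ) : ℝ)) ^ 2 *
          (K (n + 1) * (2 * s) * (2 * s)) + 1 * (s * ‖ψ‖)) +
          (Fintype.card (J (n + 1)) : ℝ) * (K (n + 1) * s * m (n + 1)) =
          ‖ψ‖ + K (n + 1) * s * D n := by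
        simp only [D, m]
        push_cast
        field_simp
        ring
      rw [e2]
      linarith

end Pool.Agent.Work.MP_f25c59_an
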